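import Pool.Agent.X72.RSR.Stm

set_option autoImplicit false

open MeasureTheory ProbabilityTheory Filter Topology
open scoped ENNReal

namespace Pool.Agent.X125.RS

open Pool.Agent.X19.SS

theorem meas_dist2 (K : Type) [RCLike K] [MeasurableSpace K] [BorelSpace K] (m p : ℕ) :
    Measurable (fun y : (Fin m → K) × (Fin p → Fin m → K) => dist2 y.2 y.1) := by
  haveI : SecondCountableTopology K := inferInstance
  have h : UpperSemicontinuous (fun y : (Fin m → K) × (Fin p → Fin m → K) => dist2 y.2 y.1) := by
    unfold dist2
    apply upperSemicontinuous_iInf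
    intro v
    apply Continuous.upperSemicontinuous
    unfold nsq
    apply continuous_finset_sum
    intro i _
    have h1 : Continuous fun y : (Fin m → K) × (Fin p → Fin m → K) => (y.1 + ∑ k, v k • y.2 k) i := by
      simp only [Pi.add_apply, Finset.sum_apply, Pi.smul_apply]
      fun_prop
    exact ((ENNReal.continuous_pow 2).comp (continuous_enorm.comp h1))
  exact h.measurable

theorem t_RM : Pool.Agent.X72.RSR.S_RM := by
  intro hD2 hD3 K _ _ _ m p hpm
  haveI : SecondCountableTopology K := inferInstance
  haveI hprob : IsProbabilityMeasure (gK K (Fin m)) := by unfold gK; infer_instance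
  have hmp := measurePreserving_piFinSuccAbove (fun _ : Fin (p + 1) => gK K (Fin m)) (Fin.last p)
  have hF := meas_dist2 K m p
  have hcomp : (fun C : Fin (p + 1) → Fin m → K => dist2 (fun i : Fin p => C i.castSucc) (C (Fin.last p))) =
      (fun y : (Fin m → K) × (Fin p → Fin m → K) => dist2 y.2 y.1) ∘
        (MeasurableEquiv.piFinSuccAbove (fun _ : Fin (p + 1) => (Fin m → K)) (Fin.last p)) := by
    funext C
    simp only [Function.comp, MeasurableEquiv.piFinSuccAbove_apply, Fin.insertNthEquiv_symm_apply]
    congr 1
    funext i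
    simp [Fin.removeNth, Fin.succAbove_last]
  refine ⟨?_, ?_⟩
  · rw [hcomp]
    exact hF.comp (MeasurableEquiv.measurable _)
  · have h1 : ∫⁻ C, dist2 (fun i : Fin p => C i.castSucc) (C (Fin.last p)) ∂(Measure.pi fun _ : Fin (p + 1) => gK K (Fin m))
        = ∫⁻ y, dist2 y.2 y.1 ∂((gK K (Fin m)).prod (Measure.pi fun _ : Fin p => gK K (Fin m))) := by
      have := hmp.lintegral_comp hF
      rw [← this]
      apply lintegral_congr
      intro C
      exact congrFun hcomp C
    rw [h1, lintegral_prod_symm _ hF.aemeasurable]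
    have h2 : ∀ᵐ S ∂(Measure.pi (fun _ : Fin p => gK K (Fin m))),
        ∫⁻ s, dist2 S s ∂(gK K (Fin m)) = (Module.finrank ℝ K : ℝ≥0∞) * ((m - p : ℕ) : ℝ≥0∞) := by
      filter_upwards [hD2 K p (Fin m) (by simpa using hpm)] with S hS
      have := hD3 K p (Fin m) S hS (by simpa using hpm)
      simpa using this
    rw [lintegral_congr_ae h2]
    simp

end Pool.Agent.X125.RS
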